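import Mathlib
import Pool.Agent.H71.Nak

namespace Pool.Agent.Results.MP_54b62b_gt.Counter

open Filter Topology TopologicalSpace

/-- A locally minimal, sequentially complete abelian group, all of whose closed zero-dimensional
subgroups are finite, that is not locally Euclidean. -/
theorem result :
    ∃ (G : Type) (_ : AddCommGroup G) (τ : TopologicalSpace G),
      IsTopologicalAddGroup G ∧ T2Space G ∧
      (∃ V ∈ nhds (0 : G), ∀ σ : TopologicalSpace G,
          @IsTopologicalAddGroup G σ _ → @T2Space G σ → τ ≤ σ → V ∈ @nhds G σ 0 → σ = τ) ∧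
      (∀ u : ℕ → G, (∀ U ∈ nhds (0 : G), ∃ N, ∀ m ≥ N, ∀ n ≥ N, u m - u n ∈ U) →
        ∃ x, Tendsto u atTop (nhds x)) ∧
      (∀ H : AddSubgroup G, IsClosed (H : Set G) →
        IsTopologicalBasis {s : Set H | IsClopen s} → Finite H) ∧
      ¬ ∀ x : G, ∃ (n : ℕ) (e : OpenPartialHomeomorph G (EuclideanSpace ℝ (Fin n))),
        x ∈ e.source := by
  have i : IsTopologicalAddGroup H71.Nak.G := inferInstance
  refine ⟨H71.Nak.G, inferInstance, inferInstance, i, inferInstance,
    ⟨Metric.closedBall 0 (1 / 5), Metric.closedBall_mem_nhds _ (by norm_num),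
      fun σ h _ le hU => h.ext i (le_antisymm (H71.Nak.locMin _ hU (fun W hW => ?_) (fun k => ?_)
        fun W hW => @mem_of_mem_nhds _ σ _ _ hW) (nhds_mono le))⟩,
    fun u hu => cauchySeq_tendsto_of_complete (Metric.cauchySeq_iff.2 fun ε hε => ?_),
    fun H cH hb => ?_, fun h => ?_⟩
  · exact @exists_nhds_zero_half _ σ _ h.toContinuousAdd _ hW
  · exact @Continuous.tendsto' _ _ σ σ _ (@continuous_nsmul _ σ _ h.toContinuousAdd k) 0 0 (by simp)
  · obtain ⟨N, hN⟩ := hu _ (Metric.ball_mem_nhds 0 hε)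
    exact ⟨N, fun m hm n hn => by simpa [dist_eq_norm] using hN m hm n hn⟩
  · by_cases h : H = ⊥
    · rw [h]; infer_instance
    obtain ⟨C, hC, h0, h1⟩ := hb.mem_nhds_iff.1 (Metric.ball_mem_nhds (0 : H) (by norm_num : (0 : ℝ) < 1 / 4))
    exact (H71.Nak.erdos H cH h hC h0 h1).elim
  · obtain ⟨n, e, he⟩ := h 0
    exact H71.Nak.not_chart e he

end Pool.Agent.Results.MP_54b62b_gt.Counter
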